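import Mathlib

namespace Pool.Agent.Results.MP_78c350_an.Filt

open Set Filter Cardinal Function

set_option maxHeartbeats 400000

/-- Poor filters. -/
def Poor (F : Filter ℕ) : Prop :=
  ∀ S : Set (Set ℕ), (∀ A ∈ S, Aᶜ ∉ F) → (S.Pairwise fun A B => (A ∩ B)ᶜ ∈ F) → S.Countable

/-- Conglomerated filters. -/
def Congl (F : Filter ℕ) : Prop :=
  ∃ D : ℕ → Set ℕ, Pairwise (Disjoint on D) ∧ (∀ n, (D n)ᶜ ∈ F) ∧
    ∀ M : Set ℕ, M.Infinite → (⋃ n ∈ M, D n)ᶜ ∉ F

theorem ad : ∃ M : (ℕ → Bool) → Set ℕ, (∀ x, (M x).Infinite) ∧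
    Pairwise fun x y => (M x ∩ M y).Finite := by
  let g : (ℕ → Bool) → ℕ → ℕ := fun x n => Encodable.encode ((List.range n).map x)
  refine ⟨fun x => range (g x), fun x => infinite_range_of_injective fun a b h => ?_,
    fun x y h => ?_⟩
  · simpa using congrArg List.length (Encodable.encode_injective h)
  · obtain ⟨k, hk⟩ := Function.ne_iff.1 h
    refine ((finite_Iic k).image (g x)).subset ?_
    rintro _ ⟨⟨a, rfl⟩, b, hb⟩
    have h1 := Encodable.encode_injective hb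
    obtain rfl : b = a := by simpa using congrArg List.length h1
    refine ⟨b, show b ≤ k from not_lt.1 fun hc => hk ?_, rfl⟩
    exact (List.map_inj_left.1 h1 k (List.mem_range.2 hc)).symm

theorem avoid {ι : Type} (hι : #ι < 𝔠) (U : ι → Ultrafilter ℕ) {D : ℕ → Set ℕ}
    (hD : Pairwise (Disjoint on D)) (h : ∀ n i, D n ∉ U i) :
    ∃ M : Set ℕ, M.Infinite ∧ ∀ i, (⋃ n ∈ M, D n) ∉ U i := by
  obtain ⟨M, M1, M2⟩ := ad
  by_contra hc
  push Not at hc
  choose f hf using fun x => hc (M x) (M1 x)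
  have : Injective f := fun x y e => by
    by_contra hne
    have h1 : (⋃ n ∈ M x ∩ M y, D n) ∈ U (f x) := by
      filter_upwards [hf x, e ▸ hf y] with a h1 h2
      obtain ⟨n, n1, n2⟩ := mem_iUnion₂.1 h1
      obtain ⟨m, m1, m2⟩ := mem_iUnion₂.1 h2
      obtain rfl : n = m := by_contra fun e => disjoint_left.1 (hD e) n2 m2
      exact mem_biUnion ⟨n1, m1⟩ n2
    obtain ⟨n, -, hn⟩ := (Ultrafilter.finite_biUnion_mem_iff (M2 hne)).1 h1
    exact h n _ hn
  simpa using (mk_le_of_injective this).trans_lt hι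

theorem ult {A : Set ℕ} (h : A.Infinite) : ∃ U : Ultrafilter ℕ, A ∈ U ∧ (U : Filter ℕ) ≤ cofinite := by
  have := cofinite_inf_principal_neBot_iff.2 h
  obtain ⟨U, hU⟩ := exists_ultrafilter_le (cofinite ⊓ 𝓟 A)
  exact ⟨U, le_principal_iff.1 (hU.trans inf_le_right), hU.trans inf_le_left⟩

theorem final {ι : Type} [Uncountable ι] (A : ι → Set ℕ) (U : ι → Ultrafilter ℕ)
    (h1 : ∀ i, A i ∈ U i) (h2 : ∀ i, (U i : Filter ℕ) ≤ cofinite)
    (h3 : Pairwise fun i j => (A i ∩ A j).Finite)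
    (h4 : ∀ D : ℕ → Set ℕ, Pairwise (Disjoint on D) → (∀ n i, D n ∉ U i) →
      ∃ M : Set ℕ, M.Infinite ∧ ∀ i, (⋃ n ∈ M, D n) ∉ U i) :
    ∃ F : Filter ℕ, F.NeBot ∧ F ≤ cofinite ∧ ¬ Poor F ∧ ¬ Congl F := by
  have h5 : (⨆ i, (U i : Filter ℕ)) ≤ cofinite := iSup_le h2
  refine ⟨⨆ i, U i, iSup_neBot.2 ⟨Classical.arbitrary ι, inferInstance⟩, h5, fun h => ?_, ?_⟩
  · have h6 : Injective A := fun i j e => by
      by_contra hne
      have : (A i ∩ A j).Finite := h3 hne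
      rw [← e, inter_self] at this
      exact Ultrafilter.compl_mem_iff_notMem.1 (h2 i this.compl_mem_cofinite) (h1 i)
    have := h (range A) (by
      rintro _ ⟨i, rfl⟩ h
      exact Ultrafilter.compl_mem_iff_notMem.1 (mem_iSup.1 h i) (h1 i)) (by
      rintro _ ⟨i, rfl⟩ _ ⟨j, rfl⟩ h
      exact h5 (h3 fun e => h (congrArg A e)).compl_mem_cofinite)
    exact not_countable_univ (countable_of_injective_of_countable_image h6.injOn
      (image_univ ▸ this))
  · rintro ⟨D, d1, d2, d3⟩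
    obtain ⟨M, m1, m2⟩ := h4 D d1 fun n i =>
      Ultrafilter.compl_mem_iff_notMem.1 (mem_iSup.1 (d2 n) i)
    exact d3 M m1 (mem_iSup.2 fun i => Ultrafilter.compl_mem_iff_notMem.2 (m2 i))

structure Dat where
  A : Set ℕ
  R : Set ℕ
  E : Set ℕ
  U : Ultrafilter ℕ

def Q {ι : Type} (D : ℕ → Set ℕ) (f : ι → Dat) (x : Dat) : Prop :=
  x.R.Infinite ∧ x.A ∈ x.U ∧ (x.U : Filter ℕ) ≤ cofinite ∧ (x.R ∩ (x.A ∪ x.E)).Finite ∧
  (x.A ∩ x.E).Finite ∧
  (∀ a, (x.A ∩ ((f a).A ∪ (f a).E)).Finite ∧ (x.R ∩ ((f a).A ∪ (f a).E)).Finite ∧ x.E ∉ (f a).U) ∧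
  (Pairwise (Disjoint on D) → (∀ n a, D n ∉ (f a).U) → ∃ M : Set ℕ, M.Infinite ∧ x.E = ⋃ n ∈ M, D n)

theorem step {ι : Type} [Countable ι] [LinearOrder ι] (D : ℕ → Set ℕ) (f : ι → Dat)
    (h1 : ∀ a, (f a).R.Infinite) (h2 : ∀ a b, b ≤ a → ((f a).R ∩ ((f b).A ∪ (f b).E)).Finite) :
    ∃ x, Q D f x := by
  let G : Filter ℕ := cofinite ⊓ ⨅ a, 𝓟 ((f a).A ∪ (f a).E)ᶜ
  have hG : G.NeBot := by
    rcases isEmpty_or_nonempty ι with h | h
    · simp only [G, iInf_of_empty, inf_top_eq]; infer_instance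
    refine (iInf_neBot_of_directed' (f := fun a => cofinite ⊓ ⨅ b ≤ a, 𝓟 ((f b).A ∪ (f b).E)ᶜ)
      (Antitone.directed_ge fun a b hab => inf_le_inf_left _
        (biInf_mono fun c hc => le_trans hc hab)) fun a => ?_).mono ?_
    · refine (cofinite_inf_principal_neBot_iff.2 (h1 a)).mono (le_inf inf_le_left
        (le_iInf₂ fun b hb => le_principal_iff.2 ?_))
      filter_upwards [mem_inf_of_left (h2 a b hb).compl_mem_cofinite,
        mem_inf_of_right (mem_principal_self _)] with n n1 n2 n3 using n1 ⟨n2, n3⟩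
    · exact le_inf (iInf_le_of_le (Classical.arbitrary ι) inf_le_left) (le_iInf fun a =>
        iInf_le_of_le a (inf_le_of_right_le (iInf_le_of_le a (iInf_le _ (le_refl a)))))
  obtain ⟨W, hW⟩ := exists_ultrafilter_le G
  obtain ⟨E, e1, e2, e3⟩ : ∃ E : Set ℕ, E ∉ W ∧ (∀ a, E ∉ (f a).U) ∧ (Pairwise (Disjoint on D) →
      (∀ n a, D n ∉ (f a).U) → ∃ M : Set ℕ, M.Infinite ∧ E = ⋃ n ∈ M, D n) := by
    by_cases h : Pairwise (Disjoint on D) ∧ ∀ n a, D n ∉ (f a).U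
    swap
    · exact ⟨∅, by simp, by simp, fun a b => absurd ⟨a, b⟩ h⟩
    by_cases h' : ∃ k, D k ∈ W
    · obtain ⟨k, hk⟩ := h'
      obtain ⟨M, m1, m2⟩ := avoid (mk_le_aleph0.trans_lt aleph0_lt_continuum)
        (fun a => (f a).U) h.1 h.2
      refine ⟨_, fun hc => ?_, fun a hc => m2 a (mem_of_superset hc
        (biUnion_subset_biUnion_left sdiff_subset)), fun _ _ =>
        ⟨M \ {k}, m1.diff (finite_singleton k), rfl⟩⟩
      obtain ⟨n, n1, n2⟩ := W.nonempty_of_mem (inter_mem hc hk)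
      obtain ⟨m, m1, m2⟩ := mem_iUnion₂.1 n1
      exact disjoint_left.1 (h.1 m1.2) m2 n2
    · push Not at h'
      obtain ⟨M, m1, m2⟩ := avoid (ι := Option ι) (mk_le_aleph0.trans_lt aleph0_lt_continuum)
        (fun a => a.elim W fun a => (f a).U) h.1 (by rintro n (_ | a); exacts [h' n, h.2 n a])
      exact ⟨_, m2 none, fun a => m2 (some a), fun _ _ => ⟨M, m1, rfl⟩⟩
  have hG' : (G ⊓ 𝓟 Eᶜ).NeBot := W.neBot.mono (le_inf hW (le_principal_iff.2
    (Ultrafilter.compl_mem_iff_notMem.2 e1)))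
  have : (cofinite : Filter ℕ).IsCountablyGenerated := by rw [Nat.cofinite_eq_atTop]; infer_instance
  obtain ⟨u, hu⟩ := exists_seq_tendsto (G ⊓ 𝓟 Eᶜ)
  have hf : ∀ S : Set ℕ, Sᶜ ∈ G ⊓ 𝓟 Eᶜ → (range u ∩ S).Finite := fun S hS => by
    have : (u ⁻¹' S).Finite := by
      have := hu hS
      rw [← Nat.cofinite_eq_atTop, mem_map, mem_cofinite] at this
      simpa using this
    refine (this.image u).subset ?_
    rintro _ ⟨⟨n, rfl⟩, h⟩
    exact ⟨n, h, rfl⟩
  have hi : (range u).Infinite := fun h => by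
    obtain ⟨n, hn⟩ := (hu.eventually (mem_inf_of_left (mem_inf_of_left
      h.compl_mem_cofinite))).exists
    exact hn ⟨n, rfl⟩
  let e := hi.natEmbedding
  have he : ∀ g : ℕ → ℕ, range (fun n => (e (g n)).1) ⊆ range u := by
    rintro g _ ⟨n, rfl⟩; exact (e _).2
  have hinf : ∀ g : ℕ → ℕ, Injective g → (range fun n => (e (g n)).1).Infinite := fun g hg =>
    infinite_range_of_injective (Subtype.val_injective.comp (e.injective.comp hg))
  obtain ⟨U, u1, u2⟩ := ult (hinf (fun n => 2 * n) fun a b h => by simpa using h)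
  have hE := hf E (mem_inf_of_right (mem_principal_self _))
  have ha := fun a => hf ((f a).A ∪ (f a).E) (mem_inf_of_left (mem_inf_of_right
    (mem_iInf_of_mem a (mem_principal_self _))))
  refine ⟨⟨_, range fun n => (e (2 * n + 1)).1, E, U⟩, hinf _ fun a b h => by simpa using h, u1, u2,
    hE.subset ?_, hE.subset (inter_subset_inter_left _ (he _)), fun a =>
    ⟨(ha a).subset (inter_subset_inter_left _ (he _)),
      (ha a).subset (inter_subset_inter_left _ (he _)), e2 a⟩, e3⟩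
  rintro _ ⟨⟨n, rfl⟩, ⟨m, h⟩ | h⟩
  · have := e.injective (Subtype.val_injective h); omega
  · exact ⟨(e _).2, h⟩

theorem result : ∃ F : Filter ℕ, F.NeBot ∧ F ≤ cofinite ∧ ¬ Poor F ∧ ¬ Congl F := by
  rcases aleph_one_le_continuum.{0}.lt_or_eq with h | h
  · obtain ⟨M, M1, M2⟩ := ad
    obtain ⟨T, hT⟩ := le_mk_iff_exists_set.1 (show ℵ₁ ≤ #(ℕ → Bool) by simpa using h.le)
    have : Uncountable T := aleph0_lt_mk_iff.1 (hT ▸ aleph0_lt_aleph_one)
    choose U u1 u2 using fun x : T => ult (M1 x)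
    exact final (fun x : T => M x) U u1 u2 (fun x y e => M2 fun e' => e (Subtype.ext e'))
      fun D d1 d2 => avoid (hT ▸ h) U d1 d2
  let ι := (ℵ₁ : Cardinal.{0}).ord.ToType
  have h1 : #ι = ℵ₁ := mk_ord_toType _
  have : Uncountable ι := aleph0_lt_mk_iff.1 (h1 ▸ aleph0_lt_aleph_one)
  obtain ⟨D⟩ : Nonempty (ι ≃ (ℕ → Set ℕ)) := Cardinal.eq.1 (by rw [h1, h]; simp)
  have : Nonempty Dat := ⟨⟨∅, ∅, ∅, hyperfilter ℕ⟩⟩
  let f : ι → Dat := (wellFounded_lt (α := ι)).fix fun b ih =>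
    Classical.epsilon (Q (D b) fun a : Iio b => ih a a.2)
  have hf : ∀ b, Q (D b) (fun a : Iio b => f a) (f b) := by
    intro b
    induction b using WellFoundedLT.induction with
    | _ b ih =>
      have : Countable (Iio b) := (countable_iff_lt_aleph_one _).2 (mk_Iio_ord_toType b)
      rw [show f b = Classical.epsilon (Q (D b) fun a : Iio b => f a) from
        WellFounded.fix_eq _ _ _]
      refine Classical.epsilon_spec (step (ι := Iio b) _ _ (fun a => (ih a a.2).1) fun a c hc => ?_)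
      rcases hc.lt_or_eq with hc | rfl
      · exact ((ih a a.2).2.2.2.2.2.1 ⟨c, hc⟩).2.1
      · exact (ih c c.2).2.2.2.1
  refine final (fun b => (f b).A) (fun b => (f b).U) (fun b => (hf b).2.1) (fun b => (hf b).2.2.1)
    (fun a b hab => ?_) fun E e1 e2 => ?_
  · wlog h : a < b generalizing a b
    · rw [inter_comm]; exact this b a hab.symm (lt_of_le_of_ne (not_lt.1 h) hab.symm)
    exact ((hf b).2.2.2.2.2.1 ⟨a, h⟩).1.subset fun n hn => ⟨hn.2, Or.inl hn.1⟩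
  · obtain ⟨b, rfl⟩ := D.surjective E
    obtain ⟨M, m1, m2⟩ := (hf b).2.2.2.2.2.2 e1 fun n a => e2 n a
    refine ⟨M, m1, fun a => m2 ▸ ?_⟩
    have key : ((f a).A ∩ (f b).E).Finite → (f b).E ∉ (f a).U := fun h hc =>
      Ultrafilter.compl_mem_iff_notMem.1 ((hf a).2.2.1 h.compl_mem_cofinite)
        (inter_mem (hf a).2.1 hc)
    rcases lt_trichotomy a b with h | rfl | h
    · exact ((hf b).2.2.2.2.2.1 ⟨a, h⟩).2.2
    · exact key (hf a).2.2.2.2.1
    · exact key (((hf a).2.2.2.2.2.1 ⟨b, h⟩).1.subset fun n hn => ⟨hn.1, Or.inr hn.2⟩)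

end Pool.Agent.Results.MP_78c350_an.Filt
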